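import Pool.Agent.H317.GR.StmC

/-!
# Project GR (helper317): a full flag for the powers of the elements of a nilpotent linear group
-/

set_option autoImplicit false

namespace Pool.Agent.H177.GR

open Pool.Agent.H317.GR
open Module

section

variable {K V N : Type} [Field K] [AddCommGroup V] [Module K V] [Group N]

/-- the action on an invariant subspace -/
noncomputable def res (ρ : N →* Module.End K V) (W : Submodule K V)
    (hW : ∀ g, ∀ v ∈ W, ρ g v ∈ W) : N →* Module.End K W where
  toFun g := (ρ g).restrict (hW g)
  map_one' := by
    refine LinearMap.ext fun v => Subtype.ext ?_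
    show ρ 1 (v : V) = v
    rw [map_one]
    rfl
  map_mul' g h := by
    refine LinearMap.ext fun v => Subtype.ext ?_
    show ρ (g * h) (v : V) = ρ g (ρ h v)
    rw [map_mul]
    rfl

theorem res_apply (ρ : N →* Module.End K V) (W : Submodule K V)
    (hW : ∀ g, ∀ v ∈ W, ρ g v ∈ W) (g : N) (v : W) : ((res ρ W hW g v : W) : V) = ρ g v := rfl

/-- the action on a quotient -/
noncomputable def quo (ρ : N →* Module.End K V) (W : Submodule K V)
    (hW : ∀ g, ∀ v ∈ W, ρ g v ∈ W) : N →* Module.End K (V ⧸ W) where
  toFun g := W.mapQ W (ρ g) (hW g)
  map_one' := by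
    refine Submodule.linearMap_qext _ ?_
    refine LinearMap.ext fun v => ?_
    rw [LinearMap.comp_apply, Submodule.mkQ_apply, Submodule.mapQ_apply, map_one]
    rfl
  map_mul' g h := by
    refine Submodule.linearMap_qext _ ?_
    refine LinearMap.ext fun v => ?_
    rw [LinearMap.comp_apply, Submodule.mkQ_apply, Submodule.mapQ_apply, map_mul]
    rfl

theorem quo_apply (ρ : N →* Module.End K V) (W : Submodule K V)
    (hW : ∀ g, ∀ v ∈ W, ρ g v ∈ W) (g : N) (v : V) :
    quo ρ W hW g (W.mkQ v) = W.mkQ (ρ g v) := rfl

theorem finrank_comap_mkQ [FiniteDimensional K V] (W : Submodule K V) (U : Submodule K (V ⧸ W)) :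
    finrank K (U.comap W.mkQ) = finrank K W + finrank K U := by
  set P := U.comap W.mkQ with hP
  have hWP : W ≤ P := by
    intro v hv
    rw [hP, Submodule.mem_comap, Submodule.mkQ_apply, (Submodule.Quotient.mk_eq_zero W).2 hv]
    exact U.zero_mem
  have h1 := LinearMap.finrank_range_add_finrank_ker (W.mkQ.domRestrict P)
  have h2 : LinearMap.range (W.mkQ.domRestrict P) = U := by
    rw [LinearMap.range_domRestrict, hP, Submodule.map_comap_eq_of_surjective W.mkQ_surjective]
  have h3 : LinearMap.ker (W.mkQ.domRestrict P) = W.comap P.subtype := by
    rw [LinearMap.ker_domRestrict, Submodule.ker_mkQ]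
  rw [h2, h3, LinearEquiv.finrank_eq (Submodule.comapSubtypeEquivOfLe hWP)] at h1
  omega

/-- part of a flag of a subspace -/
noncomputable def fl (W : Submodule K V) [FiniteDimensional K W] (i : ℕ) : Submodule K V :=
  Submodule.span K (Set.range fun j : Fin (min i (finrank K W)) =>
    ((finBasis K W (Fin.castLE (min_le_right i (finrank K W)) j) : W) : V))

theorem fl_le (W : Submodule K V) [FiniteDimensional K W] (i : ℕ) : fl W i ≤ W := by
  unfold fl
  rw [Submodule.span_le]
  rintro _ ⟨j, rfl⟩
  exact (finBasis K W (Fin.castLE (min_le_right i (finrank K W)) j)).2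

theorem fl_mono (W : Submodule K V) [FiniteDimensional K W] {i i' : ℕ} (h : i ≤ i') :
    fl W i ≤ fl W i' := by
  unfold fl
  apply Submodule.span_mono
  rintro _ ⟨j, rfl⟩
  refine ⟨⟨j, lt_of_lt_of_le j.2 (min_le_min_right _ h)⟩, ?_⟩
  rfl

theorem finrank_fl (W : Submodule K V) [FiniteDimensional K W] (i : ℕ) (hi : i ≤ finrank K W) :
    finrank K (fl W i) = i := by
  unfold fl
  have h1 : LinearIndependent K (fun j : Fin (min i (finrank K W)) =>
      ((finBasis K W (Fin.castLE (min_le_right i (finrank K W)) j) : W) : V)) := by
    have h2 := (finBasis K W).linearIndependent.comp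
      (Fin.castLE (min_le_right i (finrank K W))) (Fin.castLE_injective _)
    exact h2.map' W.subtype W.ker_subtype
  rw [finrank_span_eq_card h1, Fintype.card_fin, min_eq_left hi]

end

theorem tri (hirr : S_IRR) : S_TRI := by
  classical
  intro K V N _ _ _ _ _ _ _ ρ
  -- induction on the dimension
  have main : ∀ n : ℕ, ∀ (V : Type) [AddCommGroup V] [Module K V] [FiniteDimensional K V]
      (ρ : N →* Module.End K V), finrank K V = n →
      ∃ k : ℕ, 0 < k ∧ ∃ F : ℕ → Submodule K V, TriFlag ρ (Set.range fun g : N => g ^ k) F := by
    intro n
    induction n using Nat.strong_induction_on with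
    | _ n ih =>
      intro V _ _ _ ρ hn
      rcases Nat.eq_zero_or_pos n with h0 | hpos
      · refine ⟨1, one_pos, fun _ => ⊤, fun _ _ _ => le_rfl, fun i hi => ?_, rfl,
          fun _ _ _ => ⟨0, fun _ _ => Submodule.mem_top⟩⟩
        rw [finrank_top]
        omega
      · -- a minimal invariant subspace
        have hntV : Nontrivial V := by
          apply Module.nontrivial_of_finrank_pos (R := K)
          omega
        set 𝒮 : Set (Submodule K V) := {W | W ≠ ⊥ ∧ ∀ g, ∀ v ∈ W, ρ g v ∈ W} with h𝒮
        have hne : 𝒮.Nonempty := ⟨⊤, top_ne_bot, fun _ _ _ => Submodule.mem_top⟩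
        obtain ⟨W, hW𝒮, hmin⟩ := (wellFounded_lt (α := Submodule K V)).has_min 𝒮 hne
        obtain ⟨hW0, hW⟩ := hW𝒮
        have hntW : Nontrivial W := Submodule.nontrivial_iff_ne_bot.2 hW0
        have hirrW : ∀ U : Submodule K W, (∀ g, ∀ v ∈ U, res ρ W hW g v ∈ U) → U = ⊥ ∨ U = ⊤ := by
          intro U hU
          by_cases hU0 : U = ⊥
          · exact Or.inl hU0
          · right
            have h1 : U.map W.subtype ∈ 𝒮 := by
              refine ⟨?_, ?_⟩
              · intro h2
                apply hU0
                rw [eq_bot_iff]
                intro u hu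
                have h3 : (u : V) ∈ U.map W.subtype := ⟨u, hu, rfl⟩
                rw [h2, Submodule.mem_bot] at h3
                rw [Submodule.mem_bot]
                exact Subtype.ext h3
              · rintro g _ ⟨v, hv, rfl⟩
                exact ⟨res ρ W hW g v, hU g v hv, rfl⟩
            have h2 : U.map W.subtype ≤ W := Submodule.map_subtype_le W U
            have h3 : U.map W.subtype = W := by
              by_contra h4
              exact hmin _ h1 (lt_of_le_of_ne h2 h4)
            rw [eq_top_iff]
            intro w _
            have h4 : (w : V) ∈ U.map W.subtype := by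
              rw [h3]
              exact w.2
            obtain ⟨u, hu, hu2⟩ := h4
            have h5 : u = w := Subtype.ext hu2
            rw [← h5]
            exact hu
        obtain ⟨E, hE, hscal⟩ := hirr K W N (res ρ W hW) hirrW
        have hadd := Submodule.finrank_quotient_add_finrank W
        have heW : 0 < finrank K W := finrank_pos
        obtain ⟨k', hk', F', hF'm, hF'r, hF't, hF's⟩ := ih (finrank K (V ⧸ W)) (by omega) (V ⧸ W)
          (quo ρ W hW) rfl
        set e := finrank K W with he
        have hF'0 : F' 0 = ⊥ := by
          rw [← Submodule.finrank_eq_zero (R := K)]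
          exact hF'r 0 (Nat.zero_le _)
        set F : ℕ → Submodule K V := fun i => if i < e then fl W i else (F' (i - e)).comap W.mkQ
          with hF
        have hFlt : ∀ i, i < e → F i = fl W i := fun i hi => if_pos hi
        have hFge : ∀ i, e ≤ i → F i = (F' (i - e)).comap W.mkQ := fun i hi => if_neg (by omega)
        have hWc : ∀ j, W ≤ (F' j).comap W.mkQ := by
          intro j v hv
          rw [Submodule.mem_comap, Submodule.mkQ_apply, (Submodule.Quotient.mk_eq_zero W).2 hv]
          exact (F' j).zero_mem
        have hFleW : ∀ i, i ≤ e → F i ≤ W := by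
          intro i hi
          rcases lt_or_eq_of_le hi with h | h
          · rw [hFlt i h]
            exact fl_le W i
          · rw [hFge i (by omega), h, Nat.sub_self, hF'0]
            intro v hv
            rw [Submodule.mem_comap, Submodule.mem_bot, Submodule.mkQ_apply,
              Submodule.Quotient.mk_eq_zero] at hv
            exact hv
        have hFr : ∀ i, i ≤ finrank K V → finrank K (F i) = i := by
          intro i hi
          rcases lt_or_ge i e with h | h
          · rw [hFlt i h]
            exact finrank_fl W i h.le
          · rw [hFge i h, finrank_comap_mkQ, hF'r (i - e) (by omega)]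
            omega
        refine ⟨E * k', Nat.mul_pos hE hk', F, ?_, hFr, ?_, ?_⟩
        · refine monotone_nat_of_le_succ fun i => ?_
          rcases lt_or_ge (i + 1) e with h | h
          · rw [hFlt i (by omega), hFlt (i + 1) h]
            exact fl_mono W (Nat.le_succ i)
          · rcases lt_or_ge i e with h' | h'
            · rw [hFge (i + 1) h]
              exact (hFleW i h'.le).trans (hWc _)
            · rw [hFge i h', hFge (i + 1) h]
              exact Submodule.comap_mono (hF'm (by omega))
        · exact Submodule.eq_top_of_finrank_eq (hFr _ le_rfl)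
        · rintro _ ⟨g, rfl⟩ i
          rcases lt_or_ge i e with h | h
          · -- inside `W`
            obtain ⟨c, hc⟩ := hscal g
            refine ⟨c ^ k', fun v hv => ?_⟩
            have hvW : v ∈ W := hFleW (i + 1) (by omega) hv
            have h1 : res ρ W hW (g ^ (E * k')) = (c ^ k') • 1 := by
              rw [map_pow, pow_mul, hc, smul_pow, one_pow]
            have h2 : ρ (g ^ (E * k')) v = c ^ k' • v := by
              have h3 := congrArg (fun A : Module.End K W => ((A ⟨v, hvW⟩ : W) : V)) h1
              exact h3
            show ρ (g ^ (E * k')) v - c ^ k' • v ∈ F i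
            rw [h2, sub_self]
            exact (F i).zero_mem
          · -- in the quotient
            set j := i - e with hj
            obtain ⟨c, hc⟩ := hF's _ ⟨g, rfl⟩ j
            set A := quo ρ W hW (g ^ k') with hA
            have hstab : ∀ u ∈ F' j, A u ∈ F' j := by
              intro u hu
              rcases Nat.eq_zero_or_pos j with h0 | hp
              · rw [h0, hF'0, Submodule.mem_bot] at hu ⊢
                rw [hu, map_zero]
              · obtain ⟨j', hj'⟩ : ∃ j', j = j' + 1 := ⟨j - 1, by omega⟩
                obtain ⟨c', hc'⟩ := hF's _ ⟨g, rfl⟩ j'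
                have h1 := hc' u (by rw [← hj']; exact hu)
                have h2 : A u - c' • u ∈ F' j := hF'm (by omega) h1
                have h3 := (F' j).add_mem h2 ((F' j).smul_mem c' hu)
                rwa [sub_add_cancel] at h3
            have hpow : ∀ n : ℕ, ∀ w ∈ F' (j + 1), (A ^ n) w - c ^ n • w ∈ F' j := by
              intro n
              induction n with
              | zero =>
                intro w _
                rw [pow_zero, pow_zero, one_smul, Module.End.one_apply, sub_self]
                exact (F' j).zero_mem
              | succ n ihn =>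
                intro w hw
                have h1 := hstab _ (ihn w hw)
                have h2 := (F' j).smul_mem (c ^ n) (hc w hw)
                have h3 := (F' j).add_mem h1 h2
                have h4 : A ((A ^ n) w - c ^ n • w) + c ^ n • (A w - c • w) =
                    (A ^ (n + 1)) w - c ^ (n + 1) • w := by
                  rw [map_sub, map_smul, smul_sub, smul_smul, ← pow_succ, pow_succ' A,
                    Module.End.mul_apply]
                  abel
                rw [← h4]
                exact h3
            refine ⟨c ^ E, fun v hv => ?_⟩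
            rw [hFge (i + 1) (by omega), Submodule.mem_comap] at hv
            have h5 : i + 1 - e = j + 1 := by omega
            rw [h5] at hv
            rw [hFge i h, Submodule.mem_comap, map_sub, map_smul, ← quo_apply ρ W hW]
            have h6 : quo ρ W hW (g ^ (E * k')) = A ^ E := by
              rw [hA, ← map_pow, ← pow_mul, mul_comm]
            show quo ρ W hW (g ^ (E * k')) (W.mkQ v) - c ^ E • W.mkQ v ∈ F' j
            rw [h6]
            exact hpow E _ hv
  exact main _ V ρ rfl

end Pool.Agent.H177.GR
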